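import Pool.Agent.X20.Tr.LogR

/-!
# Furstenberg systems of sequences of signs along `⌊α n ^ c⌋`

From Mathlib: `Measure`, `∫ x, _ ∂κ`: measures and integrals; `dimH E`: the Hausdorff dimension of `E`; `⌊x⌋₊`: the
integer part; `𝓝`: neighbourhoods.
-/

set_option autoImplicit false

namespace Pool.Agent.Results.MP_a4fdfa_an.AlongDilatedPowers

open Finset Filter Topology MeasureTheory
open Pool.Agent.X20.Tr

/-- the logarithmic mean `(1 / log N) ∑ F n / n` over `n ≤ N` -/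
noncomputable def logMean (F : ℕ → ℝ) (N : ℕ) : ℝ := (∑ n ∈ Icc 1 N, F n / n) / Real.log N

/-- the product of the `u (n + h i)` -/
noncomputable def corr (u : ℤ → ℝ) {m : ℕ} (h : Fin m → ℤ) (n : ℤ) : ℝ := ∏ i, u (n + h i)

/-- the integral of the product of the coordinates `h i` -/
noncomputable def moment (κ : Measure (ℤ → ℝ)) {m : ℕ} (h : Fin m → ℤ) : ℝ := ∫ x, ∏ i, x (h i) ∂κ

/-- `κ` is a Furstenberg system of `u` along the sequence `s`: a probability measure on the sequences of signs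
and the limit, along some `N k → ∞`, of the measures `(∑ n ≤ N, δ (S ^ (s n) u) / n) / log N` -/
def System (u : ℤ → ℝ) (s : ℕ → ℕ) (κ : Measure (ℤ → ℝ)) : Prop :=
  IsProbabilityMeasure κ ∧ (∀ᵐ x ∂κ, ∀ k, x k = 1 ∨ x k = -1) ∧ ∃ N : ℕ → ℕ, Tendsto N atTop atTop ∧
    ∀ (m : ℕ) (h : Fin m → ℤ), Tendsto (fun k => logMean (fun n => corr u h (s n)) (N k)) atTop (𝓝 (moment κ h))

/-- all the logarithmic means converge along `s` (`u` is generic along `s`) -/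
def Generic (u : ℤ → ℝ) (s : ℕ → ℕ) : Prop :=
  ∀ (m : ℕ) (h : Fin m → ℤ), ∃ ρ : ℝ, Tendsto (logMean fun n => corr u h (s n)) atTop (𝓝 ρ)

lemma corr_le {u : ℤ → ℝ} (hu : ∀ n, |u n| ≤ 1) {m : ℕ} (h : Fin m → ℤ) (n : ℤ) : |corr u h n| ≤ 1 := by
  unfold corr
  rw [abs_prod]
  exact prod_le_one (fun _ _ => abs_nonneg _) fun _ _ => hu _

/-- For every real `c > 1` there is `0 < κ < 1` such that for every sequence `u 0, u 1, …` of functions on `ℤ` with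
values `1` and `-1` there is a set `E` of real numbers of Hausdorff dimension at most `1 - κ` such that for every real
`α > 0` outside `E` and every `j`: `u j` has the same Furstenberg systems along `⌊α n ^ c⌋` as along all `n`, and it is
generic along `⌊α n ^ c⌋` if and only if it is generic. -/
theorem result (c : ℝ) (hc : 1 < c) : ∃ κ : ℝ, 0 < κ ∧ κ < 1 ∧ ∀ u : ℕ → ℤ → ℝ, (∀ j n, u j n = 1 ∨ u j n = -1) →
    ∃ E : Set ℝ, dimH E ≤ ENNReal.ofReal (1 - κ) ∧ ∀ α : ℝ, 0 < α → α ∉ E → ∀ j : ℕ,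
      (∀ μ : Measure (ℤ → ℝ), System (u j) (fun n => n) μ ↔ System (u j) (fun n => ⌊α * (n : ℝ) ^ c⌋₊) μ) ∧
      (Generic (u j) (fun n => n) ↔ Generic (u j) (fun n => ⌊α * (n : ℝ) ^ c⌋₊)) := by
  obtain ⟨κ, hκ0, hκ1, H⟩ := logSparse c hc
  refine ⟨κ, hκ0, hκ1, fun u hu' => ?_⟩
  have hu : ∀ j n, |u j n| ≤ 1 := by
    intro j n
    rcases hu' j n with h | h <;> rw [h] <;> simp
  have hb : ∀ (i : ℕ × Σ m : ℕ, Fin m → ℤ) (n : ℕ), ‖((corr (u i.1) i.2.2 n : ℝ) : ℂ)‖ ≤ 1 := by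
    intro i n
    rw [Complex.norm_real, Real.norm_eq_abs]
    exact corr_le (hu _) _ _
  obtain ⟨E, hE, h⟩ := H (ℕ × Σ m : ℕ, Fin m → ℤ) (fun i n => ((corr (u i.1) i.2.2 n : ℝ) : ℂ)) hb
  refine ⟨E, hE, fun α hα hαE j => ?_⟩
  have h1 := h α hα hαE
  have conv : ∀ (s N : ℕ → ℕ) (m : ℕ) (g : Fin m → ℤ) (ρ : ℝ),
      Tendsto (fun k => lav (fun n => ((corr (u j) g (s n) : ℝ) : ℂ)) (N k)) atTop (𝓝 (ρ : ℂ)) ↔
        Tendsto (fun k => logMean (fun n => corr (u j) g (s n)) (N k)) atTop (𝓝 ρ) := fun s N m g ρ =>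
    ofReal_tendsto (fun k => lav_real (fun n => corr (u j) g (s n)) (N k)) ρ
  constructor
  · intro μ
    have h2 := sys_iff hc hα (P := fun (i : Σ m : ℕ, Fin m → ℤ) (n : ℕ) => ((corr (u j) i.2 n : ℝ) : ℂ))
      (fun i n => hb (j, i) n) (fun i => h1 (j, i)) (fun i => ((moment μ i.2 : ℝ) : ℂ))
    constructor
    · rintro ⟨k1, k2, N, hN, k3⟩
      obtain ⟨N', hN', k4⟩ := h2.1 ⟨N, hN, fun i => (conv (fun n => n) N i.1 i.2 _).2 (k3 i.1 i.2)⟩
      exact ⟨k1, k2, N', hN', fun m g => (conv _ N' m g _).1 (k4 ⟨m, g⟩)⟩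
    · rintro ⟨k1, k2, N, hN, k3⟩
      obtain ⟨N', hN', k4⟩ := h2.2 ⟨N, hN, fun i => (conv _ N i.1 i.2 _).2 (k3 i.1 i.2)⟩
      exact ⟨k1, k2, N', hN', fun m g => (conv (fun n => n) N' m g _).1 (k4 ⟨m, g⟩)⟩
  · have h3 : ∀ (m : ℕ) (g : Fin m → ℤ) (ρ : ℝ),
        Tendsto (logMean fun n => corr (u j) g n) atTop (𝓝 ρ) ↔
          Tendsto (logMean fun n => corr (u j) g ⌊α * (n : ℝ) ^ c⌋₊) atTop (𝓝 ρ) := by
      intro m g ρ
      have h4 := lav_iff hc hα (P := fun n : ℕ => ((corr (u j) g n : ℝ) : ℂ)) (hb (j, ⟨m, g⟩)) (h1 (j, ⟨m, g⟩)) (ρ : ℂ)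
      exact (conv (fun n => n) id m g ρ).symm.trans (h4.trans (conv (fun n => ⌊α * (n : ℝ) ^ c⌋₊) id m g ρ))
    exact ⟨fun k m g => (k m g).imp fun ρ k1 => (h3 m g ρ).1 k1,
      fun k m g => (k m g).imp fun ρ k1 => (h3 m g ρ).2 k1⟩

end Pool.Agent.Results.MP_a4fdfa_an.AlongDilatedPowers
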